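import Pool.Agent.J6H15.AC.GD1

/-!
Behaviour of the active indices and of the potential along an analytic curve entering `0`.
-/

set_option autoImplicit false
set_option linter.unusedSectionVars false

open MeasureTheory Metric Set Filter Topology Complex
open Pool.Agent.H586R3.CT (CT)

namespace Pool.Agent.J6H17.AC

open Pool.Agent.J6H15.AC

/-- powers and the principal root in a small sector -/
lemma pow_sec {N : ℕ} (hN : 0 < N) {δ r : ℝ} (hδ : δ < 1) {z : ℂ} (hz : z ≠ 0)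
    (hr : ‖z ^ N‖ < r) (harg : N * |Complex.arg z| < δ) :
    z ^ N ∈ Sec δ r ∧ rt N (z ^ N) = z := by
  have hN0 : (N : ℂ) ≠ 0 := by exact_mod_cast hN.ne'
  have hπ : δ < Real.pi := hδ.trans (by linarith [Real.pi_gt_three])
  have h1 : z ^ N = Complex.exp (N * Complex.log z) := by
    rw [Complex.exp_nat_mul, Complex.exp_log hz]
  have him : ((N : ℂ) * Complex.log z).im = N * Complex.arg z := by
    rw [← Complex.ofReal_natCast, Complex.im_ofReal_mul, Complex.log_im]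
  have habs : |(N : ℝ) * Complex.arg z| < δ := by
    rwa [abs_mul, Nat.abs_cast]
  have h2 := abs_lt.1 habs
  have hlog : Complex.log (z ^ N) = N * Complex.log z := by
    rw [h1, Complex.log_exp]
    · rw [him]; linarith [h2.1]
    · rw [him]; linarith [h2.2]
  refine ⟨⟨norm_pos_iff.2 (pow_ne_zero _ hz), hr, ?_⟩, ?_⟩
  · rw [← Complex.log_im, hlog, him]
    exact habs
  · unfold rt
    rw [hlog, mul_div_cancel_left₀ _ hN0, Complex.exp_log hz]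

/-- a real-analytic function has a constant sign to the right of `0` -/
lemma sign_right {f : ℝ → ℝ} (hf : AnalyticAt ℝ f 0) :
    (∀ᶠ t : ℝ in 𝓝[>] 0, f t < 0) ∨ (∀ᶠ t : ℝ in 𝓝[>] 0, f t = 0) ∨
      (∀ᶠ t : ℝ in 𝓝[>] 0, 0 < f t) := by
  by_cases h0 : ∀ᶠ t in 𝓝 (0 : ℝ), f t = 0
  · exact Or.inr (Or.inl (h0.filter_mono nhdsWithin_le_nhds))
  · obtain ⟨n, g, hg, hg0, hfg⟩ := (hf.exists_eventuallyEq_pow_smul_nonzero_iff).2 h0
    have hfg' := hfg.filter_mono (nhdsWithin_le_nhds (s := Ioi (0 : ℝ)))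
    rcases lt_or_gt_of_ne hg0 with hneg | hpos
    · left
      have h1 : ∀ᶠ t in 𝓝 (0 : ℝ), g t < 0 := hg.continuousAt.eventually (gt_mem_nhds hneg)
      filter_upwards [hfg', h1.filter_mono nhdsWithin_le_nhds, self_mem_nhdsWithin] with t ht h2 h3
      rw [ht, sub_zero, smul_eq_mul]
      exact mul_neg_of_pos_of_neg (pow_pos h3 _) h2
    · right; right
      have h1 : ∀ᶠ t in 𝓝 (0 : ℝ), 0 < g t := hg.continuousAt.eventually (lt_mem_nhds hpos)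
      filter_upwards [hfg', h1.filter_mono nhdsWithin_le_nhds, self_mem_nhdsWithin] with t ht h2 h3
      rw [ht, sub_zero, smul_eq_mul]
      exact mul_pos (pow_pos h3 _) h2

/-- an analytic curve with non-zero speed enters `0` in the direction of its speed -/
lemma curve_dir {Z : ℂ → ℂ} (hZ : AnalyticAt ℂ Z 0) (h0 : Z 0 = 0) (h1 : deriv Z 0 ≠ 0)
    {N : ℕ} (hN : 0 < N) {δ : ℝ} (hδ1 : δ < 1) (hδ : N * |Complex.arg (deriv Z 0)| < δ) :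
    ∀ᶠ t : ℝ in 𝓝[>] 0, Z t ≠ 0 ∧ N * |Complex.arg (Z t)| < δ := by
  have hN1 : (1 : ℝ) ≤ N := by exact_mod_cast hN
  have hd : HasDerivAt Z (deriv Z 0) 0 := hZ.differentiableAt.hasDerivAt
  have hdR : HasDerivAt (fun t : ℝ => Z t) (deriv Z 0) 0 := by
    have := HasDerivAt.comp_ofReal (z := (0 : ℝ)) (e := Z) (e' := deriv Z 0) (by simpa using hd)
    simpa using this
  have hlim : Tendsto (fun t : ℝ => t⁻¹ • Z t) (𝓝[>] 0) (𝓝 (deriv Z 0)) := by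
    have h2 := hdR.tendsto_slope_zero_right
    simpa [h0] using h2
  have hslit : deriv Z 0 ∈ Complex.slitPlane := by
    rw [Complex.mem_slitPlane_iff_arg]
    refine ⟨?_, h1⟩
    intro h2
    rw [h2, abs_of_pos Real.pi_pos] at hδ
    nlinarith [Real.pi_gt_three]
  have harg : Tendsto (fun t : ℝ => Complex.arg (t⁻¹ • Z t)) (𝓝[>] 0)
      (𝓝 (Complex.arg (deriv Z 0))) :=
    (Complex.continuousAt_arg hslit).tendsto.comp hlim
  have harg2 : Tendsto (fun t : ℝ => (N : ℝ) * |Complex.arg (t⁻¹ • Z t)|) (𝓝[>] 0)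
      (𝓝 (N * |Complex.arg (deriv Z 0)|)) := harg.abs.const_mul _
  filter_upwards [harg2.eventually (gt_mem_nhds hδ), hlim.eventually_ne h1, self_mem_nhdsWithin]
    with t ht1 ht2 ht3
  have ht0 : (0 : ℝ) < t := ht3
  have h3 : Complex.arg (t⁻¹ • Z t) = Complex.arg (Z t) := by
    rw [Complex.real_smul]
    exact Complex.arg_real_mul _ (inv_pos.2 ht0)
  rw [h3] at ht1
  refine ⟨fun h => ht2 ?_, ht1⟩
  rw [h, smul_zero]

variable {ι : Type} [Finite ι] {μ : Measure ℂ} [IsFiniteMeasure μ] {N : ℕ} {p P : ι → ℂ → ℂ}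
  {δ r : ℝ} {v : ℂ → ℝ} {u : ℂ} {ρ : ι → ℝ}

/-- the data of a curve on `(0, t₀)` -/
structure CD (μ : Measure ℂ) (N : ℕ) (p P : ι → ℂ → ℂ) (δ r : ℝ) (t₀ : ℝ) (Z : ℂ → ℂ)
    (γ' : ℝ → ℂ) : Prop where
  pos : 0 < t₀
  sec : ∀ t : ℝ, t ∈ Ioo 0 t₀ → Z t ^ N ∈ Sec δ r
  root : ∀ t : ℝ, t ∈ Ioo 0 t₀ → rt N (Z t ^ N) = Z t
  der : ∀ t : ℝ, t ∈ Ioo 0 t₀ → HasDerivAt (fun t : ℝ => Z t ^ N) (γ' t) t
  cont : ContinuousOn γ' (Ioo 0 t₀)
  tri : ∀ i j, (∀ t ∈ Ioo 0 t₀, (γ' t * ff N p i (Z t ^ N)).re < (γ' t * ff N p j (Z t ^ N)).re) ∨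
    (∀ t ∈ Ioo 0 t₀, (γ' t * ff N p i (Z t ^ N)).re = (γ' t * ff N p j (Z t ^ N)).re) ∨
    (∀ t ∈ Ioo 0 t₀, (γ' t * ff N p j (Z t ^ N)).re < (γ' t * ff N p i (Z t ^ N)).re)

/-- existence of the data -/
lemma exists_CD (h : GD ι μ N p P δ r v u ρ) {Z : ℂ → ℂ} (hZ : AnalyticAt ℂ Z 0) (h0 : Z 0 = 0)
    (h1 : deriv Z 0 ≠ 0) (hδ : N * |Complex.arg (deriv Z 0)| < δ) :
    ∃ t₀ γ', CD μ N p P δ r t₀ Z γ' := by
  have hN := h.N_pos
  have hδ1 := h.δ_lt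
  set γ' : ℝ → ℂ := fun t => N * Z t ^ (N - 1) * deriv Z t with hγ'
  have hofR : Tendsto (fun t : ℝ => (t : ℂ)) (𝓝[>] 0) (𝓝 0) := by
    have : Tendsto (fun t : ℝ => (t : ℂ)) (𝓝 0) (𝓝 ((0 : ℝ) : ℂ)) :=
      Complex.continuous_ofReal.continuousAt
    rw [Complex.ofReal_zero] at this
    exact this.mono_left nhdsWithin_le_nhds
  have e1 := curve_dir hZ h0 h1 hN hδ1 hδ
  have e2 : ∀ᶠ t : ℝ in 𝓝[>] 0, ‖Z t ^ N‖ < r := by
    have h2 : Tendsto (fun z : ℂ => ‖Z z ^ N‖) (𝓝 0) (𝓝 0) := by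
      have h3 : ContinuousAt (fun z : ℂ => ‖Z z ^ N‖) 0 := (hZ.continuousAt.pow N).norm
      have h4 : ‖Z 0 ^ N‖ = 0 := by rw [h0, zero_pow hN.ne', norm_zero]
      have := h3.tendsto
      rwa [h4] at this
    exact (h2.comp hofR).eventually (gt_mem_nhds h.r_pos)
  have e3 : ∀ᶠ t : ℝ in 𝓝[>] 0, AnalyticAt ℂ Z t := hofR.eventually hZ.eventually_analyticAt
  have e4 : ∀ᶠ t : ℝ in 𝓝[>] 0, ∀ i, AnalyticAt ℂ (P i ∘ Z) t := by
    rw [eventually_all]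
    intro i
    have h2 : AnalyticAt ℂ (P i ∘ Z) 0 := by
      refine AnalyticAt.comp ?_ hZ
      rw [h0]
      exact h.anP i
    exact hofR.eventually h2.eventually_analyticAt
  -- trichotomy for the analytic derivatives
  have e5 : ∀ i j, (∀ᶠ t : ℝ in 𝓝[>] 0, (deriv (P i ∘ Z) t).re - (deriv (P j ∘ Z) t).re < 0) ∨
      (∀ᶠ t : ℝ in 𝓝[>] 0, (deriv (P i ∘ Z) t).re - (deriv (P j ∘ Z) t).re = 0) ∨
      (∀ᶠ t : ℝ in 𝓝[>] 0, 0 < (deriv (P i ∘ Z) t).re - (deriv (P j ∘ Z) t).re) := by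
    intro i j
    have h2 : ∀ i, AnalyticAt ℂ (deriv (P i ∘ Z)) ((0 : ℝ) : ℂ) := by
      intro i
      rw [Complex.ofReal_zero]
      refine AnalyticAt.deriv (AnalyticAt.comp ?_ hZ)
      rw [h0]
      exact h.anP i
    exact sign_right ((h2 i).re_ofReal.sub (h2 j).re_ofReal)
  obtain ⟨t₁, ht₁, hall⟩ : ∃ t₁ > 0, ∀ t : ℝ, t ∈ Ioo 0 t₁ →
      (Z t ≠ 0 ∧ N * |Complex.arg (Z t)| < δ) ∧ ‖Z t ^ N‖ < r ∧ AnalyticAt ℂ Z t ∧
        ∀ i, AnalyticAt ℂ (P i ∘ Z) t := by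
    obtain ⟨t₁, ht₁, h2⟩ := mem_nhdsGT_iff_exists_Ioo_subset.1 (e1.and (e2.and (e3.and e4)))
    exact ⟨t₁, ht₁, fun t ht => h2 ht⟩
  have hsec : ∀ t : ℝ, t ∈ Ioo 0 t₁ → Z t ^ N ∈ Sec δ r ∧ rt N (Z t ^ N) = Z t := fun t ht =>
    pow_sec hN hδ1 (hall t ht).1.1 (hall t ht).2.1 (hall t ht).1.2
  have hder : ∀ t : ℝ, t ∈ Ioo 0 t₁ → HasDerivAt (fun t : ℝ => Z t ^ N) (γ' t) t := by
    intro t ht
    have h2 : HasDerivAt Z (deriv Z t) (t : ℂ) := (hall t ht).2.2.1.differentiableAt.hasDerivAt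
    exact (h2.comp_ofReal).pow N
  have hcont : ContinuousOn γ' (Ioo 0 t₁) := by
    intro t ht
    apply ContinuousAt.continuousWithinAt
    have h2 : ContinuousAt (fun t : ℝ => (t : ℂ)) t := Complex.continuous_ofReal.continuousAt
    have h3 : ContinuousAt (fun t : ℝ => Z t) t :=
      ContinuousAt.comp (f := fun t : ℝ => (t : ℂ)) (g := Z) (hall t ht).2.2.1.continuousAt h2
    have h4 : ContinuousAt (fun t : ℝ => deriv Z t) t :=
      ContinuousAt.comp (f := fun t : ℝ => (t : ℂ)) (g := deriv Z)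
        (hall t ht).2.2.1.deriv.continuousAt h2
    exact (continuousAt_const.mul (h3.pow _)).mul h4
  have hD : ∀ i, ∀ t : ℝ, t ∈ Ioo 0 t₁ →
      (γ' t * ff N p i (Z t ^ N)).re = (deriv (P i ∘ Z) t).re := by
    intro i t ht
    have h2 : HasDerivAt (fun t : ℝ => P i (rt N (Z t ^ N))) (ff N p i (Z t ^ N) * γ' t) t :=
      HasDerivAt.comp (h₂ := fun z => P i (rt N z)) t (h.der i (Z t ^ N) (hsec t ht).1) (hder t ht)
    have h3 : HasDerivAt (fun t : ℝ => (P i ∘ Z) t) (deriv (P i ∘ Z) t) t :=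
      ((hall t ht).2.2.2 i).differentiableAt.hasDerivAt.comp_ofReal
    have h4 : (fun t : ℝ => P i (rt N (Z t ^ N))) =ᶠ[𝓝 t] (fun t : ℝ => (P i ∘ Z) t) := by
      filter_upwards [Ioo_mem_nhds ht.1 ht.2] with s hs
      rw [(hsec s hs).2]
      rfl
    have h5 := (h3.congr_of_eventuallyEq h4).unique h2
    rw [h5, mul_comm]
  have e6 : ∀ᶠ s : ℝ in 𝓝[>] 0, ∀ i j,
      (∀ t ∈ Ioo 0 s, (deriv (P i ∘ Z) (t : ℝ)).re < (deriv (P j ∘ Z) (t : ℝ)).re) ∨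
      (∀ t ∈ Ioo 0 s, (deriv (P i ∘ Z) (t : ℝ)).re = (deriv (P j ∘ Z) (t : ℝ)).re) ∨
      (∀ t ∈ Ioo 0 s, (deriv (P j ∘ Z) (t : ℝ)).re < (deriv (P i ∘ Z) (t : ℝ)).re) := by
    rw [eventually_all]
    intro i
    rw [eventually_all]
    intro j
    have aux : ∀ {q : ℝ → Prop}, (∀ᶠ t : ℝ in 𝓝[>] 0, q t) →
        ∀ᶠ s : ℝ in 𝓝[>] 0, ∀ t ∈ Ioo 0 s, q t := by
      intro q hq
      obtain ⟨w, hw, hw2⟩ := mem_nhdsGT_iff_exists_Ioo_subset.1 hq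
      filter_upwards [Ioo_mem_nhdsGT (show (0 : ℝ) < w from hw)] with s hs t ht
      exact hw2 ⟨ht.1, ht.2.trans hs.2⟩
    rcases e5 i j with h2 | h2 | h2
    · filter_upwards [aux h2] with s hs
      exact Or.inl fun t ht => sub_neg.1 (hs t ht)
    · filter_upwards [aux h2] with s hs
      exact Or.inr (Or.inl fun t ht => sub_eq_zero.1 (hs t ht))
    · filter_upwards [aux h2] with s hs
      exact Or.inr (Or.inr fun t ht => sub_pos.1 (hs t ht))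
  obtain ⟨t₀, ht₀, hlt, htri⟩ : ∃ t₀ > 0, t₀ < t₁ ∧ ∀ i j,
      (∀ t ∈ Ioo 0 t₀, (deriv (P i ∘ Z) (t : ℝ)).re < (deriv (P j ∘ Z) (t : ℝ)).re) ∨
      (∀ t ∈ Ioo 0 t₀, (deriv (P i ∘ Z) (t : ℝ)).re = (deriv (P j ∘ Z) (t : ℝ)).re) ∨
      (∀ t ∈ Ioo 0 t₀, (deriv (P j ∘ Z) (t : ℝ)).re < (deriv (P i ∘ Z) (t : ℝ)).re) := by
    obtain ⟨s, hs, hs2⟩ := (e6.and (Ioo_mem_nhdsGT ht₁)).exists
    exact ⟨s, hs2.1, hs2.2, hs⟩
  have hsub : Ioo 0 t₀ ⊆ Ioo 0 t₁ := Ioo_subset_Ioo_right hlt.le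
  refine ⟨t₀, γ', ht₀, fun t ht => (hsec t (hsub ht)).1, fun t ht => (hsec t (hsub ht)).2,
    fun t ht => hder t (hsub ht), hcont.mono hsub, fun i j => ?_⟩
  rcases htri i j with h2 | h2 | h2
  · exact Or.inl fun t ht => by rw [hD i t (hsub ht), hD j t (hsub ht)]; exact h2 t ht
  · exact Or.inr (Or.inl fun t ht => by rw [hD i t (hsub ht), hD j t (hsub ht)]; exact h2 t ht)
  · exact Or.inr (Or.inr fun t ht => by rw [hD i t (hsub ht), hD j t (hsub ht)]; exact h2 t ht)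

omit [Finite ι] in
/-- monotonicity of the classes of active indices -/
lemma CD.mono {t₀ : ℝ} {Z : ℂ → ℂ} {γ' : ℝ → ℂ} [Finite ι] (h : GD ι μ N p P δ r v u ρ)
    (c : CD μ N p P δ r t₀ Z γ') {a b : ℝ} (ha : a ∈ Ioo 0 t₀) (hb : b ∈ Ioo 0 t₀) (hab : a < b)
    {τ : ℝ} (hτ : τ ∈ Ioo 0 t₀) {k l : ι}
    (hk : k ∈ Act μ (Sec δ r) (ff N p) (Z a ^ N)) (hl : l ∈ Act μ (Sec δ r) (ff N p) (Z b ^ N)) :
    (γ' τ * ff N p k (Z τ ^ N)).re ≤ (γ' τ * ff N p l (Z τ ^ N)).re := by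
  have hsub : Icc a b ⊆ Ioo 0 t₀ := fun t ht => ⟨ha.1.trans_le ht.1, ht.2.trans_lt hb.2⟩
  have h1 := coneThm ι μ (Sec δ r) (ff N p) h.sys
    {i | (γ' τ * ff N p k (Z τ ^ N)).re ≤ (γ' τ * ff N p i (Z τ ^ N)).re} a b
    (fun t : ℝ => Z t ^ N) γ' hab (fun t ht => c.sec t (hsub ht))
    (fun t ht => (c.der t (hsub ht)).hasDerivWithinAt) (by
      intro t ht i hi j hj
      simp only [mem_setOf_eq, not_le] at hi hj
      have hlt := hj.trans_le hi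
      rw [mul_sub, Complex.sub_re, sub_pos]
      rcases c.tri j i with h2 | h2 | h2
      · exact h2 t (hsub ht)
      · exact absurd (h2 τ hτ) hlt.ne
      · exact absurd (h2 τ hτ) (not_lt.2 hlt.le)) ⟨k, le_refl (γ' τ * ff N p k (Z τ ^ N)).re, hk⟩
  exact h1 hl

/-- the potential of an index tends to `0` along the curve -/
lemma CD.hh_tendsto {t₀ : ℝ} {Z : ℂ → ℂ} {γ' : ℝ → ℂ} (h : GD ι μ N p P δ r v u ρ)
    (c : CD μ N p P δ r t₀ Z γ') (hZ : AnalyticAt ℂ Z 0) (h0 : Z 0 = 0) (k : ι) :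
    Tendsto (fun s : ℝ => hh N P k (Z s ^ N)) (𝓝[>] 0) (𝓝 0) := by
  have hofR : Tendsto (fun t : ℝ => (t : ℂ)) (𝓝[>] 0) (𝓝 0) := by
    have : Tendsto (fun t : ℝ => (t : ℂ)) (𝓝 0) (𝓝 ((0 : ℝ) : ℂ)) :=
      Complex.continuous_ofReal.continuousAt
    rw [Complex.ofReal_zero] at this
    exact this.mono_left nhdsWithin_le_nhds
  have h1 : ContinuousAt (P k ∘ Z) 0 := by
    refine ContinuousAt.comp ?_ hZ.continuousAt
    rw [h0]
    exact (h.anP k).continuousAt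
  have h2 : Tendsto (fun s : ℝ => (P k (Z s)).re) (𝓝[>] 0) (𝓝 0) := by
    have h3 := (Complex.continuous_re.continuousAt.comp h1).tendsto.comp hofR
    have h4 : (Complex.re ∘ (P k ∘ Z)) 0 = 0 := by
      simp [h0, h.P0 k]
    rw [h4] at h3
    exact h3
  refine h2.congr' ?_
  filter_upwards [Ioo_mem_nhdsGT c.pos] with s hs
  unfold hh
  rw [c.root s hs]

/-- if two indices have the same derivative along the curve, they have the same potential -/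
lemma CD.hh_eq {t₀ : ℝ} {Z : ℂ → ℂ} {γ' : ℝ → ℂ} (h : GD ι μ N p P δ r v u ρ)
    (c : CD μ N p P δ r t₀ Z γ') (hZ : AnalyticAt ℂ Z 0) (h0 : Z 0 = 0) {k l : ι}
    (hkl : ∀ t ∈ Ioo 0 t₀, (γ' t * ff N p k (Z t ^ N)).re = (γ' t * ff N p l (Z t ^ N)).re)
    {t : ℝ} (ht : t ∈ Ioo 0 t₀) : hh N P k (Z t ^ N) = hh N P l (Z t ^ N) := by
  have h1 : Tendsto (fun s : ℝ => hh N P k (Z s ^ N) - hh N P l (Z s ^ N)) (𝓝[>] 0) (𝓝 (0 - 0)) :=
    (c.hh_tendsto h hZ h0 k).sub (c.hh_tendsto h hZ h0 l)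
  have h2 : Tendsto (fun _ : ℝ => hh N P k (Z t ^ N) - hh N P l (Z t ^ N)) (𝓝[>] 0)
      (𝓝 (0 - 0)) := by
    refine h1.congr' ?_
    filter_upwards [Ioo_mem_nhdsGT ht.1] with s hs
    have hsub : Icc s t ⊆ Ioo 0 t₀ := fun w hw => ⟨hs.1.trans_le hw.1, hw.2.trans_lt ht.2⟩
    have hk := (h.integral_ff k hs.2.le (γ := fun t : ℝ => Z t ^ N) (γ' := γ')
      (fun w hw => c.sec w (hsub hw)) (fun w hw => (c.der w (hsub hw)).hasDerivWithinAt)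
      (c.cont.mono hsub)).2
    have hl := (h.integral_ff l hs.2.le (γ := fun t : ℝ => Z t ^ N) (γ' := γ')
      (fun w hw => c.sec w (hsub hw)) (fun w hw => (c.der w (hsub hw)).hasDerivWithinAt)
      (c.cont.mono hsub)).2
    have heq : ∫ w in s..t, (γ' w * ff N p k (Z w ^ N)).re =
        ∫ w in s..t, (γ' w * ff N p l (Z w ^ N)).re := by
      apply intervalIntegral.integral_congr
      intro w hw
      rw [uIcc_of_le hs.2.le] at hw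
      exact hkl w (hsub hw)
    rw [hk, hl] at heq
    linarith
  have h3 := tendsto_nhds_unique h2 tendsto_const_nhds
  linarith

theorem curveClass : CurveClass := by
  intro ι _ μ _ N p P δ r v u ρ h Z hZ h0 h1 hδ
  obtain ⟨t₀, γ', c⟩ := exists_CD h hZ h0 h1 hδ
  have hτ₀ : t₀ / 2 ∈ Ioo 0 t₀ := ⟨by linarith [c.pos], by linarith [c.pos]⟩
  set S : Set ι := {l | ∃ t : ℝ, t ∈ Ioo 0 t₀ ∧ l ∈ Act μ (Sec δ r) (ff N p) (Z t ^ N)} with hS
  have hSne : S.Nonempty := by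
    obtain ⟨l, hl⟩ := h.sys.act_nonempty (c.sec _ hτ₀)
    exact ⟨l, _, hτ₀, hl⟩
  obtain ⟨l₀, ⟨τ, hτ, hl₀⟩, hmin⟩ := Set.exists_min_image S
    (fun l => (γ' (t₀ / 2) * ff N p l (Z (t₀ / 2 : ℝ) ^ N)).re) (Set.toFinite S) hSne
  have hsub : Ioo 0 τ ⊆ Ioo 0 t₀ := Ioo_subset_Ioo_right hτ.2.le
  have hcl : ∀ t : ℝ, t ∈ Ioo 0 τ → ∀ l ∈ Act μ (Sec δ r) (ff N p) (Z t ^ N), ∀ s ∈ Ioo 0 t₀,
      (γ' s * ff N p l (Z s ^ N)).re = (γ' s * ff N p l₀ (Z s ^ N)).re := by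
    intro t ht l hl
    have e1 := c.mono h (hsub ht) hτ ht.2 hτ₀ hl hl₀
    have e2 := hmin l ⟨t, hsub ht, hl⟩
    have e3 := le_antisymm e1 e2
    rcases c.tri l l₀ with h2 | h2 | h2
    · exact absurd e3 (h2 _ hτ₀).ne
    · exact h2
    · exact absurd e3 (h2 _ hτ₀).ne'
  have hHH : ∀ t : ℝ, t ∈ Ioo 0 τ → ∀ l ∈ Act μ (Sec δ r) (ff N p) (Z t ^ N), ∀ s : ℝ,
      s ∈ Ioo 0 t₀ → hh N P l (Z s ^ N) = hh N P l₀ (Z s ^ N) := fun t ht l hl s hs =>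
    c.hh_eq h hZ h0 (hcl t ht l hl) hs
  have hv : ∀ t : ℝ, t ∈ Ioo 0 τ → v (Z t ^ N) = hh N P l₀ (Z t ^ N) := by
    intro t ht
    have hγ0 : Tendsto (fun s : ℝ => Z s ^ N) (𝓝[>] 0) (𝓝[Sec δ r] 0) := by
      rw [tendsto_nhdsWithin_iff]
      constructor
      · have hofR : Tendsto (fun t : ℝ => (t : ℂ)) (𝓝[>] 0) (𝓝 0) := by
          have : Tendsto (fun t : ℝ => (t : ℂ)) (𝓝 0) (𝓝 ((0 : ℝ) : ℂ)) :=
            Complex.continuous_ofReal.continuousAt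
          rw [Complex.ofReal_zero] at this
          exact this.mono_left nhdsWithin_le_nhds
        have h2 : Tendsto (fun z : ℂ => Z z ^ N) (𝓝 0) (𝓝 0) := by
          have h3 : ContinuousAt (fun z : ℂ => Z z ^ N) 0 := hZ.continuousAt.pow N
          have h4 : Z 0 ^ N = 0 := by rw [h0, zero_pow h.N_pos.ne']
          have := h3.tendsto
          rwa [h4] at this
        exact h2.comp hofR
      · filter_upwards [Ioo_mem_nhdsGT c.pos] with s hs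
        exact c.sec s hs
    have e1 : Tendsto (fun s : ℝ => v (Z s ^ N) - hh N P l₀ (Z s ^ N)) (𝓝[>] 0) (𝓝 (0 - 0)) :=
      (h.v_zero.comp hγ0).sub (c.hh_tendsto h hZ h0 l₀)
    have e2 : Tendsto (fun _ : ℝ => v (Z t ^ N) - hh N P l₀ (Z t ^ N)) (𝓝[>] 0)
        (𝓝 (0 - 0)) := by
      refine e1.congr' ?_
      filter_upwards [Ioo_mem_nhdsGT ht.1] with s hs
      have hsub1 : Icc s t ⊆ Ioo 0 τ := fun w hw => ⟨hs.1.trans_le hw.1, hw.2.trans_lt ht.2⟩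
      have hsub2 : Icc s t ⊆ Ioo 0 t₀ := hsub1.trans hsub
      have g1 := h.pot_ge l₀ hs.2.le (γ := fun t : ℝ => Z t ^ N) (γ' := γ')
        (fun w hw => c.sec w (hsub2 hw)) (fun w hw => (c.der w (hsub2 hw)).hasDerivWithinAt)
        (c.cont.mono hsub2) (fun w hw l hl =>
          (hcl w (hsub1 (Ioo_subset_Icc_self hw)) l hl w (hsub2 (Ioo_subset_Icc_self hw))).ge)
      have g2 := h.pot_le l₀ hs.2.le (γ := fun t : ℝ => Z t ^ N) (γ' := γ')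
        (fun w hw => c.sec w (hsub2 hw)) (fun w hw => (c.der w (hsub2 hw)).hasDerivWithinAt)
        (c.cont.mono hsub2) (fun w hw l hl =>
          (hcl w (hsub1 (Ioo_subset_Icc_self hw)) l hl w (hsub2 (Ioo_subset_Icc_self hw))).le)
      linarith
    have e3 := tendsto_nhds_unique e2 tendsto_const_nhds
    linarith
  refine ⟨τ, hτ.1, fun t ht => ⟨c.sec t (hsub ht), c.root t (hsub ht)⟩, ?_, ?_⟩
  · intro t ht l hl
    rw [hv t ht, hHH t ht l hl t (hsub ht)]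
  · intro t t' s ht ht' hs l hl l' hl'
    rw [hHH t ht l hl s (hsub hs), hHH t' ht' l' hl' s (hsub hs)]

end Pool.Agent.J6H17.AC
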