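import Mathlib
import Pool.Agent.J6H15.AC.Defs

/-!
# Local inverses, and the zero curves of the real part of a holomorphic function (part P1b)
-/

set_option autoImplicit false

open MeasureTheory Polynomial Metric Set Filter Topology Complex

namespace Pool.Agent.J6H17.AC

/-- analytic local inverse -/
lemma exists_inv (Z : ℂ → ℂ) (hZ : AnalyticAt ℂ Z 0) (h0 : Z 0 = 0) (h1 : deriv Z 0 ≠ 0) :
    ∃ h : ℂ → ℂ, AnalyticAt ℂ h 0 ∧ h 0 = 0 ∧ deriv h 0 = (deriv Z 0)⁻¹ ∧
      (∀ᶠ z in 𝓝 (0 : ℂ), h (Z z) = z) ∧ ∀ᶠ w in 𝓝 (0 : ℂ), Z (h w) = w := by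
  have ha := hZ.analyticAt_localInverse h1
  rw [h0] at ha
  have hd := hZ.hasStrictDerivAt.to_localInverse h1
  rw [h0] at hd
  have hl := hZ.hasStrictDerivAt.eventually_left_inverse h1
  have hr := hZ.hasStrictDerivAt.eventually_right_inverse h1
  rw [h0] at hr
  refine ⟨_, ha, ?_, hd.hasDerivAt.deriv, hl, hr⟩
  have := hl.self_of_nhds
  rwa [h0] at this

/-- `n`-th root of an analytic germ with a zero of order `n` -/
lemma exists_root (G : ℂ → ℂ) (hG : AnalyticAt ℂ G 0) (h0 : G 0 = 0)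
    (hne : ¬ ∀ᶠ z in 𝓝 (0 : ℂ), G z = 0) :
    ∃ (n : ℕ) (f : ℂ → ℂ), 0 < n ∧ AnalyticAt ℂ f 0 ∧ f 0 = 0 ∧ deriv f 0 ≠ 0 ∧
      ∀ᶠ z in 𝓝 (0 : ℂ), G z = f z ^ n := by
  obtain ⟨n, g, hg, hg0, hev⟩ := (hG.exists_eventuallyEq_pow_smul_nonzero_iff).2 hne
  have hn : 0 < n := by
    rcases Nat.eq_zero_or_pos n with h | h
    · exfalso
      have := hev.self_of_nhds
      rw [h0, h] at this
      simp at this
      exact hg0 this.symm
    · exact h
  obtain ⟨c, hc⟩ := IsAlgClosed.exists_pow_nat_eq (g 0) hn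
  have hc0 : c ≠ 0 := by
    rintro rfl
    rw [zero_pow hn.ne'] at hc
    exact hg0 hc.symm
  have hq : AnalyticAt ℂ (fun z => g z / g 0) 0 := hg.div analyticAt_const hg0
  have hsl : g 0 / g 0 ∈ slitPlane := by
    rw [div_self hg0]; exact one_mem_slitPlane
  have hlog : AnalyticAt ℂ (fun z => Complex.log (g z / g 0)) 0 := hq.clog hsl
  have hexp : AnalyticAt ℂ (fun z => c * Complex.exp (Complex.log (g z / g 0) / n)) 0 :=
    analyticAt_const.mul ((hlog.div analyticAt_const (by exact_mod_cast hn.ne')).cexp)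
  set u : ℂ → ℂ := fun z => c * Complex.exp (Complex.log (g z / g 0) / n) with hu
  have hu0 : u 0 = c := by simp [hu, div_self hg0]
  refine ⟨n, fun z => z * u z, hn, analyticAt_id.mul hexp, by simp, ?_, ?_⟩
  · have hd : HasDerivAt (fun z : ℂ => z * u z) (1 * u 0 + 0 * deriv u 0) 0 :=
      (hasDerivAt_id (0 : ℂ)).mul hexp.differentiableAt.hasDerivAt
    rw [hd.deriv, hu0]
    simpa using hc0
  · have hne' : ∀ᶠ z in 𝓝 (0 : ℂ), g z ≠ 0 := hg.continuousAt.eventually_ne hg0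
    filter_upwards [hev, hne'] with z hz hz'
    rw [hz, mul_pow]
    simp only [hu, sub_zero, smul_eq_mul, mul_pow]
    rw [← Complex.exp_nat_mul, mul_div_cancel₀ _ (by exact_mod_cast hn.ne'),
      Complex.exp_log (div_ne_zero hz' hg0), hc]
    field_simp

/-- part P1b -/
theorem p1b : Pool.Agent.J6H15.AC.P1b := by
  intro G hG h0 hne
  obtain ⟨n, f, hn, hf, hf0, hf1, hGf⟩ := exists_root G hG h0 hne
  obtain ⟨F, hF, hF0, hF1, hFf, hfF⟩ := exists_inv f hf hf0 hf1
  have hfin : Set.Finite {d : ℂ | d ^ (2 * n) = -1} := by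
    have hp : ((X : ℂ[X]) ^ (2 * n) + 1) ≠ 0 := by
      intro h
      have := congrArg (fun p => Polynomial.eval 0 p) h
      simp [hn.ne'] at this
    refine (Polynomial.rootSet_finite ((X : ℂ[X]) ^ (2 * n) + 1) ℂ).subset ?_
    intro d hd
    rw [Polynomial.mem_rootSet]
    refine ⟨hp, ?_⟩
    rw [Set.mem_ofPred_eq] at hd
    simp [hd]
  have := hfin.fintype
  let D := {d : ℂ | d ^ (2 * n) = -1}
  let e : D ≃ Fin (Fintype.card D) := Fintype.equivFin D
  have hF1' : deriv F 0 ≠ 0 := by rw [hF1]; exact inv_ne_zero hf1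
  refine ⟨Fintype.card D, fun k z => F (z * ((e.symm k : D) : ℂ)), ?_, ?_⟩
  · intro k
    set d : ℂ := ((e.symm k : D) : ℂ) with hd
    have hdD : d ^ (2 * n) = -1 := (e.symm k).2
    have hd0 : d ≠ 0 := by
      intro h
      rw [h, zero_pow (by omega)] at hdD
      norm_num at hdD
    have hlin : AnalyticAt ℂ (fun z : ℂ => z * d) 0 := analyticAt_id.mul analyticAt_const
    refine ⟨?_, ?_, ?_, ?_⟩
    · have : AnalyticAt ℂ (F ∘ fun z : ℂ => z * d) 0 := by
        refine AnalyticAt.comp ?_ hlin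
        simpa using hF
      exact this
    · show F (0 * d) = 0
      rw [zero_mul, hF0]
    · have h1 : HasDerivAt F (deriv F 0) ((0 : ℂ) * d) := by
        rw [zero_mul]; exact hF.differentiableAt.hasDerivAt
      have h2 : HasDerivAt (fun z : ℂ => z * d) d 0 := by
        simpa using (hasDerivAt_id (0 : ℂ)).mul_const d
      have h3 := HasDerivAt.comp (0 : ℂ) h1 h2
      have h4 : deriv (fun z : ℂ => F (z * d)) 0 = deriv F 0 * d := h3.deriv
      show deriv (fun z : ℂ => F (z * d)) 0 ≠ 0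
      rw [h4]
      exact mul_ne_zero hF1' hd0
    · have ht : Tendsto (fun t : ℝ => (t : ℂ) * d) (𝓝 0) (𝓝 0) := by
        have : Continuous (fun t : ℝ => (t : ℂ) * d) := by fun_prop
        simpa using this.tendsto 0
      have ht2 : Tendsto (fun t : ℝ => F ((t : ℂ) * d)) (𝓝 0) (𝓝 0) := by
        have hc := hF.continuousAt.tendsto
        rw [hF0] at hc
        exact hc.comp ht
      filter_upwards [ht.eventually hfF, ht2.eventually hGf] with t h1 h2
      show (G (F (t * d))).re = 0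
      rw [h2, h1, mul_pow]
      have h5 : (d ^ n - I) * (d ^ n + I) = 0 := by
        have : (d ^ n - I) * (d ^ n + I) = d ^ (2 * n) - I ^ 2 := by
          rw [pow_mul']; ring
        rw [this, hdD, I_sq]; ring
      have h6 : (d ^ n).re = 0 := by
        rcases mul_eq_zero.1 h5 with h | h
        · rw [sub_eq_zero.1 h]; simp
        · rw [eq_neg_of_add_eq_zero_left h]; simp
      rw [← Complex.ofReal_pow, Complex.re_ofReal_mul, h6, mul_zero]
  · intro t₀ ht₀
    have hfc : Tendsto f (𝓝 0) (𝓝 0) := by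
      have := hf.continuousAt.tendsto
      rwa [hf0] at this
    have hsm : ∀ᶠ z in 𝓝 (0 : ℂ), ‖f z‖ < t₀ := by
      have := hfc.norm
      rw [norm_zero] at this
      exact this.eventually (gt_mem_nhds ht₀)
    obtain ⟨r, hr, hball⟩ := Metric.eventually_nhds_iff_ball.1 ((hFf.and hGf).and hsm)
    refine ⟨r, hr, ?_⟩
    intro ζ hζ0 hζr hre
    obtain ⟨⟨h1, h2⟩, h3⟩ := hball ζ (by simpa using hζr)
    set w := f ζ with hw
    have hw0 : w ≠ 0 := by
      intro h
      rw [h, hF0] at h1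
      rw [← h1] at hζ0
      simp at hζ0
    have hwn : (‖w‖ : ℂ) ≠ 0 := by exact_mod_cast (norm_pos_iff.2 hw0).ne'
    have hd : (w / ‖w‖) ^ (2 * n) = -1 := by
      rw [h2] at hre
      have h4 : w ^ n = ((w ^ n).im : ℂ) * I := by
        apply Complex.ext
        · simpa using hre
        · simp
      have h5 : ((w ^ n).im : ℝ) ^ 2 = (‖w‖ ^ n) ^ 2 := by
        have h6 : ‖w ^ n‖ = |(w ^ n).im| := by
          conv_lhs => rw [h4]
          rw [norm_mul, norm_I, mul_one, Complex.norm_real, Real.norm_eq_abs]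
        rw [← norm_pow, h6, sq_abs]
      rw [div_pow, pow_mul', h4, mul_pow, I_sq, div_eq_iff (pow_ne_zero _ hwn)]
      have h7 : (((w ^ n).im : ℂ)) ^ 2 = ((‖w‖ : ℂ) ^ n) ^ 2 := by exact_mod_cast h5
      rw [h7, pow_mul' (‖w‖ : ℂ) 2 n]
      ring
    refine ⟨e ⟨w / ‖w‖, hd⟩, ‖w‖, norm_pos_iff.2 hw0, h3, ?_⟩
    show ζ = F (((‖w‖ : ℝ) : ℂ) * ((e.symm (e ⟨w / ‖w‖, hd⟩) : D) : ℂ))
    rw [Equiv.symm_apply_apply]
    show ζ = F (((‖w‖ : ℝ) : ℂ) * (w / ‖w‖))
    rw [mul_div_cancel₀ _ hwn, hw, h1]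

end Pool.Agent.J6H17.AC
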