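import Mathlib
import Pool.Agent.J6H15.AC.Defs
import Pool.Agent.J6H17.AC.P1b

/-!
# Half branches are analytic arcs (part P1a)
-/

set_option autoImplicit false

open MeasureTheory Polynomial Metric Set Filter Topology Complex

namespace Pool.Agent.J6H17.AC

open Pool.Agent.J6H15.AC (IsArc)

/-- an even analytic germ is an analytic function of `x ^ 2` -/
lemma even_factor (E : ℂ → ℂ) (hE : AnalyticAt ℂ E 0) (hev : ∀ᶠ x in 𝓝 (0 : ℂ), E (-x) = E x) :
    ∃ Y : ℂ → ℂ, AnalyticAt ℂ Y 0 ∧ ∀ᶠ x in 𝓝 (0 : ℂ), E x = Y (x ^ 2) := by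
  obtain ⟨r, hr, hball⟩ := Metric.eventually_nhds_iff_ball.1 (hev.and hE.eventually_analyticAt)
  -- the two branches of the square root
  let b₁ : ℂ → ℂ := fun u => Complex.exp (Complex.log u / 2)
  let b₂ : ℂ → ℂ := fun u => I * Complex.exp (Complex.log (-u) / 2)
  let Y : ℂ → ℂ := fun u => if u = 0 then E 0 else E (b₁ u)
  have hb₁ : ∀ u : ℂ, u ≠ 0 → b₁ u ^ 2 = u := by
    intro u hu
    show Complex.exp (Complex.log u / 2) ^ 2 = u
    rw [← Complex.exp_nat_mul]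
    push_cast
    rw [mul_div_cancel₀ _ (two_ne_zero), Complex.exp_log hu]
  have hb₂ : ∀ u : ℂ, u ≠ 0 → b₂ u ^ 2 = u := by
    intro u hu
    show (I * Complex.exp (Complex.log (-u) / 2)) ^ 2 = u
    rw [mul_pow, ← Complex.exp_nat_mul]
    push_cast
    rw [mul_div_cancel₀ _ (two_ne_zero), Complex.exp_log (neg_ne_zero.2 hu), I_sq]
    ring
  have hball2 : ∀ x : ℂ, ‖x‖ ^ 2 < r ^ 2 → ‖x‖ < r := fun x hx =>
    lt_of_pow_lt_pow_left₀ 2 hr.le hx
  -- values at any square root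
  have hval : ∀ x : ℂ, ‖x‖ < r → E x = Y (x ^ 2) := by
    intro x hx
    by_cases h0 : x = 0
    · subst h0
      simp [Y]
    · have hx2 : x ^ 2 ≠ 0 := pow_ne_zero _ h0
      simp only [Y, hx2, if_false]
      have h1 := hb₁ _ hx2
      rcases sq_eq_sq_iff_eq_or_eq_neg.1 h1 with h | h
      · rw [h]
      · rw [h]
        exact ((hball x (by simpa using hx)).1).symm
  refine ⟨Y, ?_, ?_⟩
  · have hYn : ∀ u : ℂ, ∀ x : ℂ, x ^ 2 = u → ‖u‖ < r ^ 2 → Y u = E x := by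
      intro u x hxu hu
      rw [← hxu]
      refine (hval x (hball2 x ?_)).symm
      rw [← norm_pow, hxu]; exact hu
    apply Complex.analyticAt_of_differentiable_on_punctured_nhds_of_continuousAt
    · rw [eventually_nhdsWithin_iff]
      filter_upwards [Metric.ball_mem_nhds (0 : ℂ) (pow_pos hr 2)] with u hu hu0
      have hu' : ‖u‖ < r ^ 2 := by simpa using hu
      have hu0' : u ≠ 0 := hu0
      have hopen : ∀ᶠ v in 𝓝 u, ‖v‖ < r ^ 2 ∧ v ≠ 0 :=
        (continuous_norm.continuousAt.eventually (gt_mem_nhds hu')).and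
          (isOpen_ne.mem_nhds hu0')
      rcases em (u ∈ slitPlane) with hs | hs
      · have hd : DifferentiableAt ℂ b₁ u :=
          ((differentiableAt_id.clog hs).div_const 2).cexp
        have hEd : DifferentiableAt ℂ E (b₁ u) := by
          refine (hball (b₁ u) ?_).2.differentiableAt
          have : ‖b₁ u‖ < r := hball2 _ (by rw [← norm_pow, hb₁ u hu0']; exact hu')
          simpa using this
        refine (DifferentiableAt.comp u hEd hd).congr_of_eventuallyEq ?_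
        filter_upwards [hopen] with v hv
        exact hYn v (b₁ v) (hb₁ v hv.2) hv.1
      · have hs2 : -u ∈ slitPlane := by
          rw [mem_slitPlane_iff] at hs ⊢
          push Not at hs
          rcases lt_or_eq_of_le hs.1 with h | h
          · left; simpa using h
          · exfalso
            exact hu0' (Complex.ext h hs.2)
        have hd : DifferentiableAt ℂ b₂ u :=
          (((differentiableAt_id.neg.clog hs2).div_const 2).cexp).const_mul I
        have hEd : DifferentiableAt ℂ E (b₂ u) := by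
          refine (hball (b₂ u) ?_).2.differentiableAt
          have : ‖b₂ u‖ < r := hball2 _ (by rw [← norm_pow, hb₂ u hu0']; exact hu')
          simpa using this
        refine (DifferentiableAt.comp u hEd hd).congr_of_eventuallyEq ?_
        filter_upwards [hopen] with v hv
        exact hYn v (b₂ v) (hb₂ v hv.2) hv.1
    · -- continuity at zero
      rw [Metric.continuousAt_iff]
      intro ε hε
      obtain ⟨δ, hδ, hδE⟩ := Metric.continuousAt_iff.1 hE.continuousAt ε hε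
      refine ⟨min (δ ^ 2) (r ^ 2), lt_min (pow_pos hδ 2) (pow_pos hr 2), ?_⟩
      intro u hu
      rw [dist_zero_right] at hu
      have hY0 : Y 0 = E 0 := by simp [Y]
      by_cases hu0 : u = 0
      · subst hu0; simpa using hε
      · have h1 : ‖b₁ u‖ ^ 2 = ‖u‖ := by rw [← norm_pow, hb₁ u hu0]
        have h2 : ‖b₁ u‖ < δ := by
          refine lt_of_pow_lt_pow_left₀ 2 hδ.le ?_
          rw [h1]; exact lt_of_lt_of_le hu (min_le_left _ _)
        rw [hYn u (b₁ u) (hb₁ u hu0) (lt_of_lt_of_le hu (min_le_right _ _)), hY0]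
        exact hδE (by simpa using h2)
  · filter_upwards [Metric.ball_mem_nhds (0 : ℂ) hr] with x hx
    exact hval x (by simpa using hx)

/-- near `1` the only `N`-th root of unity is `1` -/
lemma roots_discrete (N : ℕ) (hN : 0 < N) : ∀ᶠ x in 𝓝 (1 : ℂ), x ^ N = 1 → x = 1 := by
  have hfin : Set.Finite {d : ℂ | d ^ N = 1 ∧ d ≠ 1} := by
    have hp : ((X : ℂ[X]) ^ N - 1) ≠ 0 := by
      intro h
      have := congrArg (fun p => Polynomial.eval 0 p) h
      simp [hN.ne'] at this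
    refine (Polynomial.rootSet_finite ((X : ℂ[X]) ^ N - 1) ℂ).subset ?_
    intro d hd
    rw [Polynomial.mem_rootSet]
    refine ⟨hp, ?_⟩
    rw [Set.mem_ofPred_eq] at hd
    simp [hd.1]
  have hmem : {d : ℂ | d ^ N = 1 ∧ d ≠ 1}ᶜ ∈ 𝓝 (1 : ℂ) := by
    refine hfin.isClosed.isOpen_compl.mem_nhds ?_
    simp
  filter_upwards [hmem] with x hx h1
  by_contra h2
  exact hx ⟨h1, h2⟩

/-- two different small real parameters with the same `N`-th power have opposite values -/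
lemma dich (Z : ℂ → ℂ) (hZ : AnalyticAt ℂ Z 0) (h0 : Z 0 = 0) (h1 : deriv Z 0 ≠ 0) (N : ℕ)
    (hN : 0 < N) :
    ∃ ε > 0, ∀ s s' : ℝ, |s| < ε → |s'| < ε → Z s ^ N = Z s' ^ N → s ≠ s' →
      s ≠ 0 ∧ Z s' = - Z s := by
  obtain ⟨h, -, hh0, -, hhZ, -⟩ := exists_inv Z hZ h0 h1
  set z0 := deriv Z 0 with hz0
  let U : ℝ → ℂ := fun s => (Z s) ^ 2 / (‖Z s‖ : ℂ) ^ 2
  have hslope : Tendsto (fun z : ℂ => z⁻¹ * Z z) (𝓝[≠] 0) (𝓝 z0) := by
    have := hasDerivAt_iff_tendsto_slope.1 hZ.differentiableAt.hasDerivAt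
    refine this.congr (fun z => ?_)
    rw [slope_def_field, h0]; simp [div_eq_inv_mul]
  have hof : Tendsto (fun s : ℝ => (s : ℂ)) (𝓝[≠] 0) (𝓝[≠] 0) := by
    refine tendsto_nhdsWithin_of_tendsto_nhds_of_eventually_within _ ?_ ?_
    · have := (Complex.continuous_ofReal.tendsto 0)
      rw [Complex.ofReal_zero] at this
      exact this.mono_left nhdsWithin_le_nhds
    · filter_upwards [self_mem_nhdsWithin] with s hs
      have : s ≠ 0 := hs
      simpa using this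
  have hq : Tendsto (fun s : ℝ => (s : ℂ)⁻¹ * Z s) (𝓝[≠] 0) (𝓝 z0) := hslope.comp hof
  have hn : (‖z0‖ : ℂ) ^ 2 ≠ 0 := pow_ne_zero _ (by exact_mod_cast (norm_pos_iff.2 h1).ne')
  have hU : Tendsto U (𝓝[≠] 0) (𝓝 (z0 ^ 2 / (‖z0‖ : ℂ) ^ 2)) := by
    have hcn : Continuous (fun z : ℂ => ((‖z‖ : ℝ) : ℂ)) := by fun_prop
    have h2 : Tendsto (fun s : ℝ => ((s : ℂ)⁻¹ * Z s) ^ 2 /
        (‖(s : ℂ)⁻¹ * Z s‖ : ℂ) ^ 2) (𝓝[≠] 0) (𝓝 (z0 ^ 2 / (‖z0‖ : ℂ) ^ 2)) :=
      (hq.pow 2).div (((hcn.tendsto z0).comp hq).pow 2) hn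
    refine h2.congr' ?_
    filter_upwards [self_mem_nhdsWithin] with s hs
    have hs0 : (s : ℂ) ≠ 0 := by exact_mod_cast (show s ≠ 0 from hs)
    have hs1 : ((‖(s : ℂ)‖ : ℝ) : ℂ) ^ 2 = (s : ℂ) ^ 2 := by
      rw [Complex.norm_real, Real.norm_eq_abs]
      exact_mod_cast sq_abs s
    simp only [U]
    rw [norm_mul, norm_inv]
    push_cast
    rw [mul_pow, mul_pow, inv_pow, inv_pow, hs1]
    rw [mul_div_mul_left _ _ (inv_ne_zero (pow_ne_zero 2 hs0))]
  have hu0 : z0 ^ 2 / (‖z0‖ : ℂ) ^ 2 ≠ 0 := div_ne_zero (pow_ne_zero _ h1) hn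
  have hpair : Tendsto (fun p : ℝ × ℝ => U p.2 / U p.1) ((𝓝[≠] 0) ×ˢ (𝓝[≠] 0)) (𝓝 1) := by
    have := (hU.comp (tendsto_snd (f := 𝓝[≠] (0 : ℝ)) (g := 𝓝[≠] (0 : ℝ)))).div
      (hU.comp (tendsto_fst (f := 𝓝[≠] (0 : ℝ)) (g := 𝓝[≠] (0 : ℝ)))) hu0
    rw [div_self hu0] at this
    exact this
  have hev := hpair.eventually (roots_discrete N hN)
  obtain ⟨t, ht, htt⟩ := Filter.eventually_prod_self_iff
    (r := fun x y : ℝ => (U y / U x) ^ N = 1 → U y / U x = 1) |>.1 hev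
  obtain ⟨ε₁, hε₁, hb₁⟩ := Metric.mem_nhdsWithin_iff.1 ht
  obtain ⟨ε₂, hε₂, hb₂⟩ := Metric.eventually_nhds_iff_ball.1 hhZ
  refine ⟨min ε₁ ε₂, lt_min hε₁ hε₂, ?_⟩
  intro s s' hs hs' hN' hne
  have hinv : ∀ x : ℝ, |x| < min ε₁ ε₂ → h (Z x) = x := by
    intro x hx
    apply hb₂
    have : |x| < ε₂ := lt_of_lt_of_le hx (min_le_right _ _)
    simpa using this
  have hnz : ∀ x : ℝ, |x| < min ε₁ ε₂ → x ≠ 0 → Z x ≠ 0 := by
    intro x hx hx0 hZx
    have := hinv x hx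
    rw [hZx, hh0] at this
    exact hx0 (by exact_mod_cast this.symm)
  have hs0 : s ≠ 0 := by
    intro hs0
    rw [hs0, Complex.ofReal_zero, h0, zero_pow hN.ne'] at hN'
    have : Z s' = 0 := pow_eq_zero_iff hN.ne' |>.1 hN'.symm
    exact hnz s' hs' (by rintro rfl; exact hne hs0) this
  have hs'0 : s' ≠ 0 := by
    intro hs1
    rw [hs1, Complex.ofReal_zero, h0, zero_pow hN.ne'] at hN'
    have : Z s = 0 := pow_eq_zero_iff hN.ne' |>.1 hN'
    exact hnz s hs hs0 this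
  refine ⟨hs0, ?_⟩
  have hmem : ∀ x : ℝ, |x| < min ε₁ ε₂ → x ≠ 0 → x ∈ t := by
    intro x hx hx0
    apply hb₁
    refine ⟨?_, hx0⟩
    have : |x| < ε₁ := lt_of_lt_of_le hx (min_le_left _ _)
    simpa using this
  have hnorm : ‖Z s‖ = ‖Z s'‖ := by
    have := congrArg norm hN'
    rw [norm_pow, norm_pow] at this
    exact (pow_left_inj₀ (norm_nonneg _) (norm_nonneg _) hN.ne').1 this
  have hZs := hnz s hs hs0
  have hZn : (‖Z s'‖ : ℂ) ≠ 0 := by
    rw [← hnorm]; exact_mod_cast (norm_pos_iff.2 hZs).ne'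
  have hquot : U s' / U s = Z s' ^ 2 / Z s ^ 2 := by
    simp only [U]
    rw [hnorm]
    rw [div_div_div_cancel_right₀ (pow_ne_zero 2 hZn)]
  have hk := htt s (hmem s hs hs0) s' (hmem s' hs' hs'0) (by
    rw [hquot, div_pow, ← pow_mul, ← pow_mul, mul_comm 2 N, pow_mul, pow_mul, hN', div_self]
    rw [← hN']
    exact pow_ne_zero _ (pow_ne_zero _ hZs))
  rw [hquot, div_eq_one_iff_eq (pow_ne_zero 2 hZs)] at hk
  rcases sq_eq_sq_iff_eq_or_eq_neg.1 hk with h2 | h2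
  · exfalso
    have h3 := hinv s hs
    have h4 := hinv s' hs'
    rw [h2, h3] at h4
    exact hne (by exact_mod_cast h4)
  · exact h2

/-- if `Z s ^ N` is injective near `0` then the half branch is an arc -/
lemma arc_of_inj (Z : ℂ → ℂ) (hZ : AnalyticAt ℂ Z 0) (N : ℕ)
    (hinj : ∃ ε > 0, InjOn (fun s : ℝ => Z s ^ N) (Ioo (-ε) ε)) :
    ∃ t₀ > 0, ∀ t : ℝ, 0 < t → t < t₀ → IsArc ((fun s : ℝ => Z s ^ N) '' Icc 0 t) := by
  obtain ⟨ε₁, hε₁, hinj⟩ := hinj
  obtain ⟨ε₂, hε₂, hb₂⟩ := Metric.eventually_nhds_iff_ball.1 hZ.eventually_analyticAt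
  refine ⟨min ε₁ ε₂, lt_min hε₁ hε₂, ?_⟩
  intro t ht0 ht
  set e := min ε₁ ε₂ with he
  have he0 : 0 < e := lt_min hε₁ hε₂
  refine ⟨-(e / t), e / t, fun u => Z ((t * u : ℝ) : ℂ) ^ N, ?_, ?_, ?_, ?_, ?_⟩
  · have : 0 < e / t := div_pos he0 ht0
    linarith
  · rwa [one_lt_div ht0]
  · intro u hu
    have habs : |t * u| < e := by
      rw [abs_mul, abs_of_pos ht0, mul_comm, ← lt_div_iff₀ ht0]
      exact abs_lt.2 hu
    have h1 : AnalyticAt ℂ Z ((t * u : ℝ) : ℂ) := by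
      apply hb₂
      have : |t * u| < ε₂ := lt_of_lt_of_le habs (min_le_right _ _)
      rw [mem_ball_zero_iff, Complex.norm_real, Real.norm_eq_abs]
      exact this
    have h2 : AnalyticAt ℝ (fun u : ℝ => t * u) u := analyticAt_const.mul analyticAt_id
    have h3 : AnalyticAt ℝ (fun u : ℝ => ((t * u : ℝ) : ℂ)) u :=
      (Complex.ofRealCLM.analyticAt _).comp h2
    have h4 : AnalyticAt ℝ (fun u : ℝ => Z ((t * u : ℝ) : ℂ)) u :=
      AnalyticAt.comp (g := Z) (f := fun u : ℝ => ((t * u : ℝ) : ℂ)) h1.restrictScalars h3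
    exact h4.pow N
  · intro u hu v hv huv
    have hIoo : ∀ w ∈ Ioo (-(e / t)) (e / t), t * w ∈ Ioo (-ε₁) ε₁ := by
      intro w hw
      have habs : |t * w| < e := by
        rw [abs_mul, abs_of_pos ht0, mul_comm, ← lt_div_iff₀ ht0]
        exact abs_lt.2 hw
      exact abs_lt.1 (lt_of_lt_of_le habs (min_le_left _ _))
    have := hinj (hIoo u hu) (hIoo v hv) huv
    exact mul_left_cancel₀ ht0.ne' this
  · ext z
    constructor
    · rintro ⟨s, hs, rfl⟩
      refine ⟨s / t, ⟨div_nonneg hs.1 ht0.le, (div_le_one ht0).2 hs.2⟩, ?_⟩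
      show Z ((t * (s / t) : ℝ) : ℂ) ^ N = Z s ^ N
      rw [mul_div_cancel₀ _ ht0.ne']
    · rintro ⟨u, hu, rfl⟩
      exact ⟨t * u, ⟨mul_nonneg ht0.le hu.1, mul_le_of_le_one_right ht0.le hu.2⟩, rfl⟩

end Pool.Agent.J6H17.AC
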