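import Mathlib
import Pool.Agent.J6H15.AC.Defs
import Pool.Agent.J6H17.AC.P1a

/-!
# Half branches are analytic arcs (part P1a, the induction)
-/

set_option autoImplicit false

open MeasureTheory Polynomial Metric Set Filter Topology Complex Asymptotics

namespace Pool.Agent.J6H17.AC

open Pool.Agent.J6H15.AC (IsArc)

/-- the induction step of the half-branch lemma: if `Z s ^ N` is not injective near `0` then `N` is
even and the half branch is a half branch for `N / 2` -/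
lemma step (Z : ℂ → ℂ) (hZ : AnalyticAt ℂ Z 0) (h0 : Z 0 = 0) (h1 : deriv Z 0 ≠ 0) (N : ℕ)
    (hN : 0 < N) (hinj : ¬ ∃ ε > 0, InjOn (fun s : ℝ => Z s ^ N) (Ioo (-ε) ε)) :
    ∃ (M : ℕ) (Y : ℂ → ℂ), N = 2 * M ∧ AnalyticAt ℂ Y 0 ∧ Y 0 = 0 ∧ deriv Y 0 ≠ 0 ∧
      ∀ t₁ > 0, ∃ t₀ > 0, ∀ t : ℝ, 0 < t → t < t₀ → ∃ v : ℝ, 0 < v ∧ v < t₁ ∧
        (fun s : ℝ => Z s ^ N) '' Icc 0 t = (fun s : ℝ => Y s ^ M) '' Icc 0 v := by
  obtain ⟨ε₀, hε₀, hd⟩ := dich Z hZ h0 h1 N hN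
  obtain ⟨h, hh, hh0, hh1, hhZ, hZh⟩ := exists_inv Z hZ h0 h1
  have hfreq : ∀ ε > 0, ∃ s s' : ℝ, |s| < ε ∧ |s'| < ε ∧ s ≠ 0 ∧ Z s' = - Z s ∧
      Z s ^ N = Z s' ^ N := by
    intro ε hε
    by_contra hcon
    apply hinj
    refine ⟨min ε ε₀, lt_min hε hε₀, ?_⟩
    intro s hs s' hs' hss
    by_contra hne
    have hs1 := abs_lt.2 hs
    have hs1' := abs_lt.2 hs'
    obtain ⟨h2, h3⟩ := hd s s' (lt_of_lt_of_le hs1 (min_le_right _ _))
      (lt_of_lt_of_le hs1' (min_le_right _ _)) hss hne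
    exact hcon ⟨s, s', lt_of_lt_of_le hs1 (min_le_left _ _),
      lt_of_lt_of_le hs1' (min_le_left _ _), h2, h3, hss⟩
  obtain ⟨ε₁, hε₁, hb₁⟩ := Metric.eventually_nhds_iff_ball.1 hhZ
  have hinv : ∀ x : ℝ, |x| < ε₁ → h (Z x) = x := by
    intro x hx
    apply hb₁
    simpa using hx
  -- `N` is even
  have hNe : Even N := by
    obtain ⟨s, s', hs, hs', hs0, hss, hpow⟩ := hfreq ε₁ hε₁
    have hZs : Z s ≠ 0 := by
      intro hz
      have := hinv s hs
      rw [hz, hh0] at this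
      exact hs0 (by exact_mod_cast this.symm)
    rw [hss] at hpow
    rcases Nat.even_or_odd N with h | h
    · exact h
    · exfalso
      rw [h.neg_pow] at hpow
      have : (2 : ℂ) * Z s ^ N = 0 := by linear_combination hpow
      rcases mul_eq_zero.1 this with h3 | h3
      · norm_num at h3
      · exact hZs (pow_eq_zero_iff hN.ne' |>.1 h3)
  obtain ⟨M, hM⟩ := even_iff_two_dvd.1 hNe
  -- the odd part of the inverse
  let ho : ℂ → ℂ := fun w => (h w - h (-w)) / 2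
  have hodd : ∀ w, ho (-w) = - ho w := by
    intro w; simp only [ho, neg_neg]; ring
  have hneg : AnalyticAt ℂ (fun w => h (-w)) 0 := by
    have h2 : AnalyticAt ℂ (fun w : ℂ => -w) 0 := analyticAt_id.neg
    exact AnalyticAt.comp (g := h) (f := fun w : ℂ => -w) (by simpa using hh) h2
  have hho : AnalyticAt ℂ ho 0 := (hh.sub hneg).div analyticAt_const two_ne_zero
  have hho0 : ho 0 = 0 := by simp [ho]
  have hho1 : deriv ho 0 = (deriv Z 0)⁻¹ := by
    have h2 : HasDerivAt h (deriv h 0) 0 := hh.differentiableAt.hasDerivAt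
    have h3 : HasDerivAt (fun w : ℂ => h (-w)) (deriv h 0 * -1) 0 := by
      have h2' : HasDerivAt h (deriv h 0) (-0 : ℂ) := by rw [neg_zero]; exact h2
      exact HasDerivAt.comp (0 : ℂ) h2' (hasDerivAt_neg (0 : ℂ))
    have h4 := (h2.sub h3).div_const 2
    have h5 : deriv ho 0 = (deriv h 0 - deriv h 0 * -1) / 2 := h4.deriv
    rw [h5, ← hh1]; ring
  have hho1' : deriv ho 0 ≠ 0 := by rw [hho1]; exact inv_ne_zero h1
  obtain ⟨Zt, hZt, hZt0, hZt1, hZtho, hhoZt⟩ := exists_inv ho hho hho0 hho1'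
  have hZt1' : deriv Zt 0 ≠ 0 := by rw [hZt1]; exact inv_ne_zero hho1'
  have hZtc : Tendsto Zt (𝓝 0) (𝓝 0) := by
    have := hZt.continuousAt.tendsto
    rwa [hZt0] at this
  have hZtodd : ∀ᶠ x in 𝓝 (0 : ℂ), Zt (-x) = - Zt x := by
    have h2 : Tendsto (fun x => - Zt x) (𝓝 0) (𝓝 0) := by simpa using hZtc.neg
    filter_upwards [hhoZt, h2.eventually hZtho] with x hx hx2
    rw [hodd, hx] at hx2
    exact hx2
  obtain ⟨Y, hY, hEY⟩ := even_factor (fun x => Zt x ^ 2) (hZt.pow 2) (by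
    filter_upwards [hZtodd] with x hx
    rw [hx]; ring)
  have hY0 : Y 0 = 0 := by
    have := hEY.self_of_nhds
    simp only [hZt0] at this
    rw [zero_pow two_ne_zero] at this
    exact this.symm
  have hY1 : deriv Y 0 ≠ 0 := by
    intro hY1
    have h2 : HasDerivAt Y 0 0 := by
      have := hY.differentiableAt.hasDerivAt
      rwa [hY1] at this
    have h3 : Y =o[𝓝 0] (fun u : ℂ => u) := by
      have := h2.isLittleO
      simpa [hY0] using this
    have hsq : Tendsto (fun x : ℂ => x ^ 2) (𝓝 0) (𝓝 0) := by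
      have : Continuous (fun x : ℂ => x ^ 2) := by fun_prop
      simpa using this.tendsto 0
    have h4 : (fun x : ℂ => Y (x ^ 2)) =o[𝓝 0] (fun x : ℂ => x ^ 2) := h3.comp_tendsto hsq
    have h5 : (fun x : ℂ => Zt x ^ 2) =o[𝓝 0] (fun x : ℂ => x ^ 2) :=
      h4.congr' (by filter_upwards [hEY] with x hx; exact hx.symm) (EventuallyEq.refl _ _)
    have h6 : Zt =o[𝓝 0] (fun x : ℂ => x) := IsLittleO.of_pow h5 two_ne_zero
    have h7 : HasDerivAt Zt 0 0 := by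
      rw [hasDerivAt_iff_isLittleO]
      simpa [hZt0] using h6
    exact hZt1' h7.deriv
  refine ⟨M, Y, hM, hY, hY0, hY1, ?_⟩
  -- the parameter change
  have hφ : AnalyticAt ℂ (fun z => ho (Z z)) 0 :=
    AnalyticAt.comp (g := ho) (f := Z) (by rw [h0]; exact hho) hZ
  have hφ' : AnalyticAt ℂ (fun z => ho (Z z)) ((0 : ℝ) : ℂ) := by simpa using hφ
  have him : ∀ᶠ s : ℝ in 𝓝 0, (ho (Z s)).im = 0 := by
    rcases (hφ'.im_ofReal).eventually_eq_zero_or_eventually_ne_zero with h2 | h2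
    · exact h2
    · exfalso
      obtain ⟨ε₂, hε₂, hb₂⟩ := Metric.mem_nhdsWithin_iff.1 h2
      obtain ⟨s, s', hs, hs', hs0, hss, -⟩ := hfreq (min ε₁ ε₂) (lt_min hε₁ hε₂)
      have h3 := hb₂ (show s ∈ ball 0 ε₂ ∩ {0}ᶜ from
        ⟨by simpa using lt_of_lt_of_le hs (min_le_right _ _), hs0⟩)
      apply h3
      have h4 := hinv s (lt_of_lt_of_le hs (min_le_left _ _))
      have h5 := hinv s' (lt_of_lt_of_le hs' (min_le_left _ _))
      rw [hss] at h5
      show ((h (Z s) - h (-Z s)) / 2).im = 0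
      rw [h4, h5]
      have : ((s : ℂ) - (s' : ℂ)) / 2 = (((s - s') / 2 : ℝ) : ℂ) := by push_cast; ring
      rw [this, Complex.ofReal_im]
  let φ : ℝ → ℝ := fun s => (ho (Z s)).re
  have hφa : AnalyticAt ℝ φ 0 := hφ'.re_ofReal
  have hφ0 : φ 0 = 0 := by simp [φ, h0, hho0]
  have hφd : deriv φ 0 = 1 := by
    have h2 : HasDerivAt (fun z => ho (Z z)) (deriv ho 0 * deriv Z 0) ((0 : ℝ) : ℂ) := by
      rw [Complex.ofReal_zero]
      have h3 : HasDerivAt ho (deriv ho 0) (Z 0) := by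
        rw [h0]; exact hho.differentiableAt.hasDerivAt
      exact HasDerivAt.comp (0 : ℂ) h3 hZ.differentiableAt.hasDerivAt
    rw [hho1, inv_mul_cancel₀ h1] at h2
    have h4 := h2.real_of_complex
    have h5 : deriv φ 0 = (1 : ℂ).re := h4.deriv
    rw [h5]; simp
  have hpos : ∀ᶠ s : ℝ in 𝓝 0, 0 < deriv φ s := by
    have h2 := hφa.deriv.continuousAt
    have : (0 : ℝ) < deriv φ 0 := by rw [hφd]; norm_num
    exact h2.eventually (lt_mem_nhds this)
  have hof : Tendsto (fun s : ℝ => (s : ℂ)) (𝓝 0) (𝓝 0) := by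
    have := (Complex.continuous_ofReal.tendsto 0)
    rwa [Complex.ofReal_zero] at this
  have hZc : Tendsto Z (𝓝 0) (𝓝 0) := by
    have := hZ.continuousAt.tendsto
    rwa [h0] at this
  have hφc : Tendsto (fun z => ho (Z z)) (𝓝 0) (𝓝 0) := by
    have := hφ.continuousAt.tendsto
    simp only [h0, hho0] at this
    exact this
  have hA := (hZc.comp hof).eventually hZtho
  have hB := (hφc.comp hof).eventually hEY
  intro t₁ ht₁
  have hsmall : ∀ᶠ s : ℝ in 𝓝 0, φ s ^ 2 < t₁ := by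
    have h2 : Tendsto (fun s => φ s ^ 2) (𝓝 0) (𝓝 0) := by
      have := (hφa.continuousAt.tendsto).pow 2
      rw [hφ0, zero_pow two_ne_zero] at this
      exact this
    exact h2.eventually (gt_mem_nhds ht₁)
  obtain ⟨t₀, ht₀, hball⟩ := Metric.eventually_nhds_iff_ball.1
    ((((((him.and hpos).and hA).and hB).and hsmall)).and hφa.eventually_analyticAt)
  refine ⟨t₀, ht₀, ?_⟩
  intro t ht htt
  have hIn : ∀ s ∈ Icc (0 : ℝ) t, s ∈ ball (0 : ℝ) t₀ := by
    intro s hs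
    rw [mem_ball_zero_iff, Real.norm_eq_abs, abs_of_nonneg hs.1]
    exact lt_of_le_of_lt hs.2 htt
  have hcont : ContinuousOn φ (Icc 0 t) := fun s hs =>
    (hball s (hIn s hs)).2.continuousAt.continuousWithinAt
  have hmono : StrictMonoOn φ (Icc 0 t) := by
    refine strictMonoOn_of_deriv_pos (convex_Icc 0 t) hcont ?_
    intro s hs
    exact (hball s (hIn s (interior_subset hs))).1.1.1.1.2
  have h0t : (0 : ℝ) ∈ Icc (0 : ℝ) t := ⟨le_rfl, ht.le⟩
  have htt' : t ∈ Icc (0 : ℝ) t := ⟨ht.le, le_rfl⟩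
  have hφt : 0 < φ t := by
    have := hmono h0t htt' ht
    rwa [hφ0] at this
  have hnn : ∀ s ∈ Icc (0 : ℝ) t, 0 ≤ φ s := by
    intro s hs
    have := hmono.monotoneOn h0t hs hs.1
    rwa [hφ0] at this
  have hle : ∀ s ∈ Icc (0 : ℝ) t, φ s ≤ φ t := fun s hs => hmono.monotoneOn hs htt' hs.2
  have hkey : ∀ s ∈ Icc (0 : ℝ) t, Z s ^ N = Y ((φ s ^ 2 : ℝ) : ℂ) ^ M := by
    intro s hs
    obtain ⟨⟨⟨⟨⟨h2, -⟩, h3⟩, h4⟩, -⟩, -⟩ := hball s (hIn s hs)
    have h5 : ho (Z s) = (φ s : ℂ) := by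
      apply Complex.ext
      · simp [φ]
      · simpa using h2
    have h3' : Zt (ho (Z s)) = Z s := h3
    have h4' : Zt (ho (Z s)) ^ 2 = Y (ho (Z s) ^ 2) := h4
    rw [h3', h5] at h4'
    rw [hM, pow_mul, h4']
    push_cast
    rfl
  refine ⟨φ t ^ 2, pow_pos hφt 2, (hball t (hIn t htt')).1.2, ?_⟩
  ext z
  constructor
  · rintro ⟨s, hs, rfl⟩
    exact ⟨φ s ^ 2, ⟨sq_nonneg _, pow_le_pow_left₀ (hnn s hs) (hle s hs) 2⟩, (hkey s hs).symm⟩
  · rintro ⟨v, hv, rfl⟩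
    have hsqrt : Real.sqrt v ∈ Icc (φ 0) (φ t) := by
      rw [hφ0]
      exact ⟨Real.sqrt_nonneg _, Real.sqrt_le_iff.2 ⟨hφt.le, hv.2⟩⟩
    obtain ⟨s, hs, hs2⟩ := intermediate_value_Icc ht.le hcont hsqrt
    refine ⟨s, hs, ?_⟩
    show Z s ^ N = Y (v : ℂ) ^ M
    rw [hkey s hs, hs2, Real.sq_sqrt hv.1]

/-- part P1a: the half-branch lemma -/
theorem p1a : Pool.Agent.J6H15.AC.P1a := by
  have main : ∀ N : ℕ, 0 < N → ∀ Z : ℂ → ℂ, AnalyticAt ℂ Z 0 → Z 0 = 0 → deriv Z 0 ≠ 0 →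
      ∃ t₀ > 0, ∀ t : ℝ, 0 < t → t < t₀ → IsArc ((fun s : ℝ => Z s ^ N) '' Icc 0 t) := by
    intro N
    induction N using Nat.strong_induction_on with
    | _ N ih =>
      intro hN Z hZ h0 h1
      by_cases hinj : ∃ ε > 0, InjOn (fun s : ℝ => Z s ^ N) (Ioo (-ε) ε)
      · exact arc_of_inj Z hZ N hinj
      · obtain ⟨M, Y, hM, hY, hY0, hY1, hstep⟩ := step Z hZ h0 h1 N hN hinj
        obtain ⟨t₁, ht₁, hY2⟩ := ih M (by omega) (by omega) Y hY hY0 hY1
        obtain ⟨t₀, ht₀, hst⟩ := hstep t₁ ht₁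
        refine ⟨t₀, ht₀, ?_⟩
        intro t ht htt
        obtain ⟨v, hv, hv1, heq⟩ := hst t ht htt
        rw [heq]
        exact hY2 v hv hv1
  intro Z hZ h0 h1 N hN
  exact main N hN Z hZ h0 h1

end Pool.Agent.J6H17.AC
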