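import Pool.Agent.J6H15.AC.Defs2
import Pool.Agent.J6H59.AC.P2

/-!
The Cauchy transform is small on average near a point which is not an atom.
-/

set_option autoImplicit false

open MeasureTheory Metric Set Filter Topology Complex
open scoped ENNReal
open Pool.Agent.H586R3.CT

namespace Pool.Agent.J6H17.AC

open Pool.Agent.J6H15.AC Pool.Agent.J6H59.AC

lemma floor_tendsto :
    Tendsto (fun s : ℝ => ⌊s⁻¹⌋₊ - 1) (𝓝[>] 0) atTop := by
  have h1 : Tendsto (fun s : ℝ => ⌊s⁻¹⌋₊) (𝓝[>] 0) atTop :=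
    tendsto_nat_floor_atTop.comp tendsto_inv_nhdsGT_zero
  exact (tendsto_sub_atTop_nat 1).comp h1

theorem p2s : P2s := by
  intro μ _ h0
  have h1 := (Hn_tendsto μ h0).comp floor_tendsto
  have h2 : Tendsto (fun s : ℝ => (2 * (((⌊s⁻¹⌋₊ - 1 : ℕ) : ℝ≥0∞) + 1) *
      ∫⁻ z in ball (0 : ℂ) (rn (⌊s⁻¹⌋₊ - 1)), ‖CT μ z‖ₑ).toReal) (𝓝[>] 0) (𝓝 0) := by
    have h3 := ENNReal.Tendsto.const_mul (a := 2) h1 (Or.inr (by simp))
    rw [mul_zero] at h3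
    have h4 := (ENNReal.tendsto_toReal ENNReal.zero_ne_top).comp h3
    simp only [ENNReal.toReal_zero] at h4
    refine h4.congr fun s => ?_
    simp only [Function.comp]
    rw [mul_assoc]
  have h5 : ∀ᶠ s : ℝ in 𝓝[>] 0, (2 * (((⌊s⁻¹⌋₊ - 1 : ℕ) : ℝ≥0∞) + 1) *
      ∫⁻ z in ball (0 : ℂ) (rn (⌊s⁻¹⌋₊ - 1)), ‖CT μ z‖ₑ) < 1 := by
    have h3 := ENNReal.Tendsto.const_mul (a := 2) h1 (Or.inr (by simp))
    rw [mul_zero] at h3
    filter_upwards [h3.eventually (gt_mem_nhds one_pos)] with s hs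
    rw [mul_assoc]
    exact hs
  have h6 : ∀ᶠ s : ℝ in 𝓝[>] 0, s ∈ Ioo (0 : ℝ) 1 :=
    Ioo_mem_nhdsGT one_pos
  refine tendsto_of_tendsto_of_tendsto_of_le_of_le' tendsto_const_nhds h2 ?_ ?_
  · filter_upwards [h6] with s hs
    exact mul_nonneg (inv_nonneg.2 hs.1.le) (integral_nonneg fun _ => norm_nonneg _)
  · filter_upwards [h5, h6] with s hs hs1
    set n := ⌊s⁻¹⌋₊ - 1 with hn
    have hs0 : 0 < s := hs1.1
    have hinv : 1 < s⁻¹ := (one_lt_inv₀ hs0).2 hs1.2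
    have hfl : 1 ≤ ⌊s⁻¹⌋₊ := Nat.le_floor (by exact_mod_cast hinv.le)
    have hn1 : n + 1 = ⌊s⁻¹⌋₊ := by omega
    have hnR : ((n : ℝ) + 1) = (⌊s⁻¹⌋₊ : ℝ) := by exact_mod_cast hn1
    have ha : ((n : ℝ) + 1) ≤ s⁻¹ := by rw [hnR]; exact Nat.floor_le (inv_nonneg.2 hs0.le)
    have hb : s⁻¹ < ((n : ℝ) + 1) + 1 := by rw [hnR]; exact Nat.lt_floor_add_one _
    have hpos : (0 : ℝ) < (n : ℝ) + 1 := by positivity
    have hsr : s ≤ rn n := by
      unfold rn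
      rw [one_div]
      have := inv_anti₀ hpos ha
      rwa [inv_inv] at this
    have hmeas : AEStronglyMeasurable (CT μ) (volume.restrict (ball (0 : ℂ) s)) :=
      (CT_meas μ).aestronglyMeasurable
    rw [integral_norm_eq_lintegral_enorm hmeas]
    have h7 : ENNReal.ofReal s⁻¹ * ∫⁻ z in ball (0 : ℂ) s, ‖CT μ z‖ₑ ≤
        2 * ((n : ℝ≥0∞) + 1) * ∫⁻ z in ball (0 : ℂ) (rn n), ‖CT μ z‖ₑ := by
      refine mul_le_mul' ?_ (lintegral_mono_set (ball_subset_ball hsr))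
      rw [J6H59.AC.cast_eq, show (2 : ℝ≥0∞) = ENNReal.ofReal 2 by norm_num,
        ← ENNReal.ofReal_mul (by norm_num)]
      refine ENNReal.ofReal_le_ofReal ?_
      have : (0 : ℝ) ≤ n := Nat.cast_nonneg n
      linarith
    have h8 := ENNReal.toReal_mono (hs.trans ENNReal.one_lt_top).ne h7
    rwa [ENNReal.toReal_mul, ENNReal.toReal_ofReal (inv_nonneg.2 hs0.le)] at h8

end Pool.Agent.J6H17.AC
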